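import Mathlib
import Pool.Agent.H21.LonelyDef

namespace Pool.Agent.Results.MP_ca7dc8_pr.Counter

open Pool.Agent.H21.Lonely Finset

abbrev W (t : ℕ) := Fin t → Fin 1 × Bool

def κ {t : ℕ} (w : W t) : ℕ := #{j | (w j).2 = true}

theorem κ_le {t : ℕ} (w : W t) : κ w ≤ t := (card_le_univ _).trans (by simp)

theorem pos_eq {t : ℕ} (w : W t) : pos w = fun _ => 2 * (κ w : ℤ) - t := by
  funext c
  have : ∀ j, (Pi.single (w j).1 (if (w j).2 then 1 else -1) : Fin 1 → ℤ) c =
      2 * (if (w j).2 = true then 1 else 0) - 1 := fun j => by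
    rw [Subsingleton.elim c (w j).1, Pi.single_eq_same]; split_ifs <;> rfl
  simp only [pos, Finset.sum_apply, this, sum_sub_distrib, ← mul_sum, sum_boole, κ]
  simp

theorem pos_ne {t : ℕ} (v w : W t) : pos v ≠ pos w ↔ κ v ≠ κ w := by
  rw [pos_eq, pos_eq, not_iff_not]
  exact ⟨fun h => by have := congrFun h 0; omega, fun h => by rw [h]⟩

def F (t k : ℕ) : Finset (W t) := {w | κ w = k}

theorem card_F (t k : ℕ) : #(F t k) = t.choose k := by
  rw [show t.choose k = #(powersetCard k (univ : Finset (Fin t))) by simp]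
  refine card_bij' (fun w _ => ({j | (w j).2 = true} : Finset _))
    (fun S _ j => (0, decide (j ∈ S))) (fun w hw => ?_) (fun S hS => ?_) (fun w _ => ?_) fun S _ => ?_
  · simpa [F, κ] using hw
  · simpa [F, κ] using hS
  · funext j; ext <;> simp
  · simp

def E {n t : ℕ} (i : Fin n) (S T : Finset (W t)) : Finset (Fin n → W t) :=
  Fintype.piFinset fun j => if j = i then S else T

theorem mem_E {n t : ℕ} (i : Fin n) (S T : Finset (W t)) (ω : Fin n → W t) :
    ω ∈ E i S T ↔ ω i ∈ S ∧ ∀ j, j ≠ i → ω j ∈ T := by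
  rw [E, Fintype.mem_piFinset]
  refine ⟨fun h => ⟨by simpa using h i, fun j hj => by simpa [hj] using h j⟩, fun h j => ?_⟩
  split_ifs with hj
  exacts [hj ▸ h.1, h.2 j hj]

theorem card_E {n t : ℕ} (i : Fin n) (S T : Finset (W t)) : #(E i S T) = #S * #T ^ (n - 1) := by
  rw [E, Fintype.card_piFinset, ← mul_prod_erase _ _ (mem_univ i), if_pos rfl,
    prod_congr rfl (g := fun _ => #T) fun j hj => by rw [if_neg (ne_of_mem_erase hj)]]
  simp

theorem card_W (t : ℕ) : Fintype.card (W t) = 2 ^ t := by simp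

theorem upper (n t : ℕ) : p n 1 t ≤ ((n * ∑ k ∈ range (t + 1),
    t.choose k * (2 ^ t - t.choose k) ^ (n - 1) : ℕ) : ℚ) / ((2 ^ t) ^ n : ℕ) := by
  rw [p]; push_cast [mul_one]
  refine div_le_div_of_nonneg_right ?_ (by positivity)
  norm_cast
  refine (card_le_card (t := univ.biUnion fun i => (range (t + 1)).biUnion fun k =>
    E i (F t k) (F t k)ᶜ) fun ω h => ?_).trans (card_biUnion_le.trans ?_)
  · obtain ⟨i, hi⟩ := (mem_filter.1 h).2
    simp only [mem_biUnion, mem_E, mem_univ, true_and, mem_range, F, mem_compl, mem_filter]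
    exact ⟨i, _, Nat.lt_succ_of_le (κ_le (ω i)), rfl, fun j hj => (pos_ne _ _).1 (hi j hj)⟩
  · refine (sum_le_card_nsmul _ _ (∑ k ∈ range (t + 1), t.choose k * (2 ^ t - t.choose k) ^ (n - 1))
      fun i _ => card_biUnion_le.trans_eq ?_).trans_eq (by simp)
    simp only [card_E, card_compl, card_F, card_W]

theorem lower (n t : ℕ) (ht : 0 < t) : ((n * ((2 ^ t - 1) ^ (n - 1) + (2 ^ t - 2) ^ (n - 1)) : ℕ) : ℚ) /
    ((2 ^ t) ^ n : ℕ) ≤ p n 1 t := by
  rw [p]; push_cast [mul_one]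
  refine div_le_div_of_nonneg_right ?_ (by positivity)
  norm_cast
  have hd : Disjoint (F t 0) (F t t) := by
    simp only [F, disjoint_filter]; omega
  refine le_trans (le_of_eq ?_) (card_le_card (s := univ.biUnion fun i =>
    E i (F t 0) (F t 0)ᶜ ∪ E i (F t t) (F t 0 ∪ F t t)ᶜ) fun ω h => ?_)
  · rw [card_biUnion, sum_congr rfl (g := fun _ => (2 ^ t - 1) ^ (n - 1) + (2 ^ t - 2) ^ (n - 1))]
    · simp
    · intro i _
      rw [card_union_of_disjoint, card_E, card_E, card_compl, card_compl, card_union_of_disjoint hd]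
      · simp [card_F]
      · rw [disjoint_left]
        intro ω h1 h2
        exact disjoint_left.1 hd ((mem_E ..).1 h1).1 ((mem_E ..).1 h2).1
    · intro i _ j _ hij
      rw [Function.onFun, disjoint_left]
      intro ω h1 h2
      simp only [mem_union, mem_E, F, mem_compl, mem_filter, mem_univ, true_and] at h1 h2
      rcases h1 with ⟨a, b⟩ | ⟨a, b⟩ <;> rcases h2 with ⟨c, d⟩ | ⟨c, d⟩ <;>
        have := b j hij.symm <;> have := d i hij <;> omega
  · simp only [mem_biUnion, mem_union, mem_E, F, mem_compl, mem_filter, mem_univ, true_and,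
      pos_ne] at h ⊢
    obtain ⟨i, ⟨a, b⟩ | ⟨a, b⟩⟩ := h <;> exact ⟨i, fun j hj => by have := b j hj; omega⟩

theorem result : ∃ d n t : ℕ, 1 ≤ d ∧ 1 ≤ n ∧ p n d (t + 1) < p n d t := by
  refine ⟨1, 38010, 16, le_rfl, by norm_num,
    (upper 38010 17).trans_lt (lt_of_lt_of_le ?_ (lower 38010 16 (by norm_num)))⟩
  rw [div_lt_div_iff₀ (Nat.cast_pos.2 (by positivity)) (Nat.cast_pos.2 (by positivity)),
    ← Nat.cast_mul, ← Nat.cast_mul, Nat.cast_lt]
  decide +kernel

end Pool.Agent.Results.MP_ca7dc8_pr.Counter
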